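import Pool.Agent.Helper47.ST.I

/-!
# Project ST: the pigeonhole inequality of the core
-/

set_option autoImplicit false

namespace Pool.Agent.Helper96.ST

open MeasureTheory Filter Topology
open Pool.Agent.Helper99.MS Pool.Agent.Helper71.ST

theorem sqrt_le_self' {x : ℝ} (hx : 1 ≤ x) : √x ≤ x := by
  rw [Real.sqrt_le_left (by linarith)]
  nlinarith

/-- the size of the base -/
theorem pig_base (B : ℝ) (hI : ∀ m : ℝ, 4 ≤ m → 1 / (2 * √m) ≤ I0 m) {T n : ℕ} {W : ℝ} (hT : 1 ≤ T) (hn1 : 1 ≤ n)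
    (hn : n ≤ T) (hW : 1 ≤ W) :
    |2 * (ell (T + 2) * (4 * √n) * (cC2 B ((4 * T ^ 3 : ℕ) : ℝ) * (2 * W + 3) * (16 * ((T : ℝ) ^ 3) * CS))) /
      I0 ((4 * T ^ 3 : ℕ) : ℝ)| ≤ (20480 * |B| * (16 + 176 * CI) * CS) * ((T : ℝ) ^ 11 * W) := by
  have hT1 : (1 : ℝ) ≤ T := by exact_mod_cast hT
  have hT3 : (1 : ℝ) ≤ (T : ℝ) ^ 3 := one_le_pow₀ hT1
  have hCI := CI_nonneg
  have hCS := CS_nonneg
  obtain ⟨m, hm⟩ : ∃ m : ℝ, m = ((4 * T ^ 3 : ℕ) : ℝ) := ⟨_, rfl⟩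
  have hm' : m = 4 * (T : ℝ) ^ 3 := by rw [hm]; push_cast; ring
  have hm4 : 4 ≤ m := by rw [hm']; linarith
  rw [← hm]
  have hI0 := hI m hm4
  have hsm : √m ≤ m := sqrt_le_self' (by linarith)
  have hsm0 : 0 < √m := Real.sqrt_pos.2 (by linarith)
  have hI1 : 0 < I0 m := lt_of_lt_of_le (by positivity) hI0
  have hinv : (I0 m)⁻¹ ≤ 8 * (T : ℝ) ^ 3 := by
    have h1 : (I0 m)⁻¹ ≤ (1 / (2 * √m))⁻¹ := inv_anti₀ (by positivity) hI0
    rw [one_div, inv_inv] at h1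
    linarith
  have hell : ell ((T : ℝ) + 2) ≤ 4 * T := by
    have h1 := ell_le_linear ((T : ℝ) + 2)
    rw [abs_of_nonneg (by positivity : (0 : ℝ) ≤ (T : ℝ) + 2)] at h1
    linarith
  have hell0 := ell_nonneg ((T : ℝ) + 2)
  have hsn : √(n : ℝ) ≤ T := by
    have h1 : (1 : ℝ) ≤ n := by exact_mod_cast hn1
    have h2 : (n : ℝ) ≤ T := by exact_mod_cast hn
    exact (sqrt_le_self' h1).trans h2
  have hc : |cC2 B m| ≤ |B| * ((16 + 176 * CI) * (T : ℝ) ^ 3) := by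
    unfold cC2
    have h1 : m ^ (3 / 8 : ℝ) ≤ m := by
      calc m ^ (3 / 8 : ℝ) ≤ m ^ (1 : ℝ) := Real.rpow_le_rpow_of_exponent_le (by linarith) (by norm_num)
        _ = m := Real.rpow_one m
    have h0 : 0 ≤ m ^ (3 / 8 : ℝ) := Real.rpow_nonneg (by linarith) _
    rw [abs_mul, abs_of_nonneg (by positivity : 0 ≤ 16 + 44 * m ^ (3 / 8 : ℝ) * CI)]
    apply mul_le_mul_of_nonneg_left _ (abs_nonneg _)
    have h2 : 44 * m ^ (3 / 8 : ℝ) * CI ≤ 44 * m * CI := by gcongr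
    rw [hm'] at h2
    nlinarith
  have hW2 : |2 * W + 3| ≤ 5 * W := by
    rw [abs_of_nonneg (by linarith)]
    linarith
  have hB := abs_nonneg B
  rw [abs_div, abs_of_pos hI1, div_eq_mul_inv, abs_mul, abs_mul, abs_mul, abs_mul, abs_mul, abs_mul, abs_mul, abs_mul,
    abs_of_nonneg hell0, abs_of_nonneg hCS, abs_of_nonneg (Real.sqrt_nonneg (n : ℝ)),
    abs_of_nonneg (by norm_num : (0 : ℝ) ≤ 2), abs_of_nonneg (by norm_num : (0 : ℝ) ≤ 4), abs_of_nonneg (by norm_num : (0 : ℝ) ≤ 16),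
    abs_of_nonneg (by positivity : (0 : ℝ) ≤ (T : ℝ) ^ 3)]
  calc 2 * (ell ((T : ℝ) + 2) * (4 * √(n : ℝ)) * (|cC2 B m| * |2 * W + 3| * (16 * (T : ℝ) ^ 3 * CS))) * (I0 m)⁻¹
      ≤ 2 * ((4 * T) * (4 * T) * ((|B| * ((16 + 176 * CI) * (T : ℝ) ^ 3)) * (5 * W) * (16 * (T : ℝ) ^ 3 * CS))) *
          (8 * (T : ℝ) ^ 3) := by gcongr
    _ = (20480 * |B| * (16 + 176 * CI) * CS) * ((T : ℝ) ^ 11 * W) := by ring

/-- the parameters -/
theorem pig_ev (A L₀ : ℝ) : ∃ T₀ : ℕ, ∀ T : ℕ, T₀ ≤ T → 1 ≤ T ∧ 1 ≤ Real.log T ∧ A * Real.log T ^ 2 ≤ T ∧ L₀ ≤ (T : ℝ) ^ 3 := by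
  have h1 : ∀ᶠ x : ℝ in atTop, A * Real.log x ^ 2 ≤ x := by
    have h2 := (Real.isLittleO_pow_log_id_atTop (n := 2)).bound (c := (|A| + 1)⁻¹) (by positivity)
    filter_upwards [h2, eventually_ge_atTop 0] with x hx h0
    rw [Real.norm_of_nonneg (sq_nonneg _), id, Real.norm_of_nonneg h0] at hx
    have h3 : 0 < |A| + 1 := by positivity
    have h4 : (|A| + 1) * Real.log x ^ 2 ≤ x := by
      calc (|A| + 1) * Real.log x ^ 2 ≤ (|A| + 1) * ((|A| + 1)⁻¹ * x) := mul_le_mul_of_nonneg_left hx h3.le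
        _ = x := by rw [← mul_assoc, mul_inv_cancel₀ h3.ne', one_mul]
    refine le_trans ?_ h4
    apply mul_le_mul_of_nonneg_right _ (sq_nonneg _)
    linarith [le_abs_self A]
  have h2 : ∀ᶠ x : ℝ in atTop, 1 ≤ Real.log x := Real.tendsto_log_atTop.eventually_ge_atTop 1
  have h3 : ∀ᶠ T : ℕ in atTop, 1 ≤ T ∧ 1 ≤ Real.log T ∧ A * Real.log T ^ 2 ≤ T ∧ L₀ ≤ (T : ℝ) ^ 3 := by
    filter_upwards [tendsto_natCast_atTop_atTop.eventually h1, tendsto_natCast_atTop_atTop.eventually h2,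
      eventually_ge_atTop 1, tendsto_natCast_atTop_atTop.eventually (eventually_ge_atTop L₀)] with T e1 e2 e3 e4
    refine ⟨e3, e2, e1, e4.trans ?_⟩
    have hT1 : (1 : ℝ) ≤ T := by exact_mod_cast e3
    nlinarith [sq_nonneg ((T : ℝ) - 1), mul_self_nonneg (T : ℝ), mul_le_mul hT1 hT1 zero_le_one (by positivity : (0:ℝ) ≤ T)]
  exact eventually_atTop.1 h3

/-- the pigeonhole inequality -/
theorem pig_of (hI : ∀ m : ℝ, 4 ≤ m → 1 / (2 * √m) ≤ I0 m) (B : ℝ) : ∃ T₀ : ℕ, ∀ T : ℕ, T₀ ≤ T → ∀ (n : ℕ) (U : ℝ), 1 ≤ n →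
    n ≤ T → Real.exp 1 ≤ U → (T : ℝ) ^ 4 * (1 + Real.log (Real.log U)) ≤ √(Real.log U) →
    (1 + 2 * (ell (T + 2) * (4 * √n) * (cC2 B ((4 * T ^ 3 : ℕ) : ℝ) * (2 * Real.log U + 3) * (16 * ((T : ℝ) ^ 3) * CS))) /
      I0 ((4 * T ^ 3 : ℕ) : ℝ)) ^ (2 * (ZL ((T : ℝ) ^ 3)).card) < ⌊Real.exp (√(Real.log U))⌋₊ + 1 := by
  have hCI := CI_nonneg
  have hCS := CS_nonneg
  have hB := abs_nonneg B
  obtain ⟨L₀, hL₀, hcard⟩ := ZL_card
  obtain ⟨K, hK⟩ : ∃ K : ℝ, K = 1 + 20480 * |B| * (16 + 176 * CI) * CS := ⟨_, rfl⟩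
  have hK1 : 1 ≤ K := by
    rw [hK]
    have : 0 ≤ 20480 * |B| * (16 + 176 * CI) * CS := by positivity
    linarith
  have hlK : 0 ≤ Real.log K := Real.log_nonneg hK1
  obtain ⟨T₀, hT₀⟩ := pig_ev (6 * (Real.log K + 11)) L₀
  refine ⟨T₀, fun T hT n U hn1 hn hU hTU => ?_⟩
  obtain ⟨e1, e2, e3, e4⟩ := hT₀ T hT
  have hT1 : (1 : ℝ) ≤ T := by exact_mod_cast e1
  have hW : 1 ≤ Real.log U := by
    rw [← Real.log_exp 1]
    exact Real.log_le_log (Real.exp_pos 1) hU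
  have hW0 : 0 ≤ Real.log (Real.log U) := Real.log_nonneg hW
  obtain ⟨X, hX⟩ : ∃ X : ℝ, X = 2 * (ell (T + 2) * (4 * √n) * (cC2 B ((4 * T ^ 3 : ℕ) : ℝ) * (2 * Real.log U + 3) *
    (16 * ((T : ℝ) ^ 3) * CS))) / I0 ((4 * T ^ 3 : ℕ) : ℝ) := ⟨_, rfl⟩
  have hXb := pig_base B hI e1 hn1 hn hW
  rw [← hX] at hXb ⊢
  have hTW : 1 ≤ (T : ℝ) ^ 11 * Real.log U := by
    have h1 : (1 : ℝ) ≤ (T : ℝ) ^ 11 := one_le_pow₀ hT1
    nlinarith
  have hbase : 1 + |X| ≤ K * ((T : ℝ) ^ 11 * Real.log U) := by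
    rw [hK]
    have h2 : (1 + 20480 * |B| * (16 + 176 * CI) * CS) * ((T : ℝ) ^ 11 * Real.log U) =
        (T : ℝ) ^ 11 * Real.log U + 20480 * |B| * (16 + 176 * CI) * CS * ((T : ℝ) ^ 11 * Real.log U) := by ring
    rw [h2]
    linarith
  have hX0 : 0 < 1 + |X| := by positivity
  have hlog : Real.log (1 + |X|) ≤ Real.log K + 11 * Real.log T + Real.log (Real.log U) := by
    calc Real.log (1 + |X|) ≤ Real.log (K * ((T : ℝ) ^ 11 * Real.log U)) := Real.log_le_log hX0 hbase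
      _ = Real.log K + 11 * Real.log T + Real.log (Real.log U) := by
          rw [Real.log_mul (by linarith) (by positivity), Real.log_mul (by positivity) (by linarith), Real.log_pow]
          push_cast
          ring
  have hlog0 : 0 ≤ Real.log (1 + |X|) := Real.log_nonneg (by linarith [abs_nonneg X])
  have hc : ((ZL ((T : ℝ) ^ 3)).card : ℝ) ≤ 3 * (T : ℝ) ^ 3 * Real.log T := by
    refine (hcard _ e4).trans ?_
    rw [Real.log_pow]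
    push_cast
    linarith
  have hexp : ((2 * (ZL ((T : ℝ) ^ 3)).card : ℕ) : ℝ) * Real.log (1 + |X|) ≤ √(Real.log U) := by
    refine le_trans ?_ hTU
    push_cast
    have hlT : 0 ≤ Real.log T := by linarith
    have h3 : 2 * ((ZL ((T : ℝ) ^ 3)).card : ℝ) * Real.log (1 + |X|) ≤
        2 * (3 * (T : ℝ) ^ 3 * Real.log T) * (Real.log K + 11 * Real.log T + Real.log (Real.log U)) := by
      gcongr
    refine h3.trans ?_
    have h4 : Real.log K ≤ Real.log K * Real.log T := le_mul_of_one_le_right hlK e2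
    have h5 : 6 * Real.log T * (Real.log K + 11 * Real.log T) ≤ T := by
      refine le_trans ?_ e3
      nlinarith
    have h6 : 6 * Real.log T ≤ T := by
      refine le_trans ?_ h5
      nlinarith
    have h7 : 6 * Real.log T * (Real.log K + 11 * Real.log T + Real.log (Real.log U)) ≤
        T * (1 + Real.log (Real.log U)) := by nlinarith
    calc 2 * (3 * (T : ℝ) ^ 3 * Real.log T) * (Real.log K + 11 * Real.log T + Real.log (Real.log U)) =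
        (T : ℝ) ^ 3 * (6 * Real.log T * (Real.log K + 11 * Real.log T + Real.log (Real.log U))) := by ring
      _ ≤ (T : ℝ) ^ 3 * (T * (1 + Real.log (Real.log U))) := mul_le_mul_of_nonneg_left h7 (by positivity)
      _ = (T : ℝ) ^ 4 * (1 + Real.log (Real.log U)) := by ring
  have hpow : (1 + X) ^ (2 * (ZL ((T : ℝ) ^ 3)).card) ≤ (1 + |X|) ^ (2 * (ZL ((T : ℝ) ^ 3)).card) := by
    have h8 : |1 + X| ≤ 1 + |X| := by
      have := abs_add_le 1 X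
      rwa [abs_one] at this
    calc (1 + X) ^ (2 * (ZL ((T : ℝ) ^ 3)).card) ≤ |1 + X| ^ (2 * (ZL ((T : ℝ) ^ 3)).card) := by
          rw [← abs_pow]
          exact le_abs_self _
      _ ≤ _ := pow_le_pow_left₀ (abs_nonneg _) h8 _
  refine lt_of_le_of_lt (hpow.trans ?_) (Nat.lt_floor_add_one (Real.exp (√(Real.log U))))
  rw [← Real.exp_log hX0, ← Real.exp_nat_mul]
  exact Real.exp_le_exp.2 hexp

/-- **the pigeonhole inequality** -/
theorem pig (B : ℝ) : ∃ T₀ : ℕ, ∀ T : ℕ, T₀ ≤ T → ∀ (n : ℕ) (U : ℝ), 1 ≤ n →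
    n ≤ T → Real.exp 1 ≤ U → (T : ℝ) ^ 4 * (1 + Real.log (Real.log U)) ≤ √(Real.log U) →
    (1 + 2 * (ell (T + 2) * (4 * √n) * (cC2 B ((4 * T ^ 3 : ℕ) : ℝ) * (2 * Real.log U + 3) * (16 * ((T : ℝ) ^ 3) * CS))) /
      I0 ((4 * T ^ 3 : ℕ) : ℝ)) ^ (2 * (ZL ((T : ℝ) ^ 3)).card) < ⌊Real.exp (√(Real.log U))⌋₊ + 1 :=
  pig_of (fun _ h => Pool.Agent.Helper47.ST.I0_ge h) B

end Pool.Agent.Helper96.ST
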